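import Mathlib
import Pool.Agent.W126.PrimeShort

/-!
# Primes in progressions modulo powers of two in short intervals, uniformly in the modulus

For every `A` and all large `y` the interval `(y, y + y / (log y)^A]` contains a prime of every
odd residue class modulo `2 ^ k`, for every `k` with `2 ^ k ≤ log y`.  This is the theorem of
Siegel and Walfisz with the second difference method of `Pool.Agent.W142.ES.Prime` and
`Pool.Agent.W126.PrimeShort`.
-/

set_option autoImplicit false
set_option maxHeartbeats 4000000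

open Finset Filter Topology

namespace Pool.Agent.Q245.Half

open Pool.Agent.H410R2 (psiLogAP psiLog1 SiegelWalfisz)
open Pool.Agent.W142.ES (psiLogAP_max psiLog1_max secdiff secdiff1 secdiff1_ge secdiff_le)
open Pool.Agent.W126.PrimeShort (psi_diff)

theorem sw : SiegelWalfisz :=
  Pool.Agent.H379R2.SW.siegelWalfisz Pool.Agent.H307R2.siegel

open Classical in
theorem disc2 (A : ℕ) : ∀ᶠ X : ℝ in atTop, ∀ k a : ℕ, (2 : ℝ) ^ k ≤ Real.log X →
    a.Coprime (2 ^ k) →
    |psiLogAP X (2 ^ k) a - psiLog1 X / ((2 ^ k).totient : ℝ)| ≤ X / (Real.log X) ^ A := by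
  obtain ⟨x₀, h⟩ := sw (A + 1) 1
  have e1 : ∀ᶠ x : ℝ in atTop, 2 * (Real.log x) ^ (A + 4) ≤ x := by
    have h := (isLittleO_log_rpow_rpow_atTop ((A + 4 : ℕ) : ℝ)
      (show (0 : ℝ) < 1 by norm_num)).def (show (0 : ℝ) < 1 / 2 by norm_num)
    filter_upwards [h, eventually_ge_atTop (1 : ℝ)] with x h2 h3
    rw [Real.norm_of_nonneg (Real.rpow_nonneg (Real.log_nonneg h3) _),
      Real.norm_of_nonneg (Real.rpow_nonneg (by linarith) _), Real.rpow_one,
      Real.rpow_natCast] at h2
    linarith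
  filter_upwards [eventually_ge_atTop x₀, eventually_ge_atTop (1 : ℝ), e1,
    Real.tendsto_log_atTop.eventually_ge_atTop (6 : ℝ)] with X hX hX1 hXlog hlog k a hk ha
  have hq : 1 ≤ 2 ^ k := Nat.one_le_two_pow
  have h1 := Pool.Agent.H732R2.B2.AP_bound X hX1 (2 ^ k) hq a ha
  refine h1.trans ?_
  have hl0 : 0 < Real.log X := by linarith
  have hφ : 0 < ((2 ^ k).totient : ℝ) := by exact_mod_cast Nat.totient_pos.2 hq
  have htot : (2 : ℝ) ^ k ≤ 2 * ((2 ^ k).totient : ℝ) := by
    rcases Nat.eq_zero_or_pos k with rfl | hk0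
    · simp
    · rw [Nat.totient_prime_pow Nat.prime_two hk0]
      have e : (2 : ℝ) ^ k = 2 * 2 ^ (k - 1) := by
        rw [← pow_succ', Nat.sub_add_cancel hk0]
      rw [e]
      norm_num
  have hV : ∀ f ∈ (2 ^ k).divisors.filter (fun f => f ≠ 1),
      Pool.Agent.H732R2.B2.VV X f ≤ (f.totient : ℝ) * (X / (Real.log X) ^ (A + 1)) := by
    intro f hf
    rw [mem_filter, Nat.mem_divisors] at hf
    have hf1 : 1 ≤ f := Nat.pos_of_ne_zero fun h0 => by
      rw [h0] at hf; exact hf.1.2 (zero_dvd_iff.mp hf.1.1)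
    have hf2 : 1 < f := lt_of_le_of_ne hf1 (Ne.symm hf.2)
    have hfle : (f : ℝ) ≤ Real.log X := by
      have : f ≤ 2 ^ k := Nat.le_of_dvd (by positivity) hf.1.1
      have h2 : (f : ℝ) ≤ (2 : ℝ) ^ k := by exact_mod_cast this
      linarith
    unfold Pool.Agent.H732R2.B2.VV
    calc _ ≤ ∑ ψ ∈ (univ : Finset (DirichletCharacter ℂ f)).filter (fun ψ => ψ.IsPrimitive),
          X / (Real.log X) ^ (A + 1) := by
          apply sum_le_sum
          intro ψ hψ
          rw [mem_filter] at hψ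
          exact h X hX f hf2 (by rw [pow_one]; exact hfle) ψ hψ.2
      _ ≤ _ := by
        rw [sum_const, nsmul_eq_mul]
        apply mul_le_mul_of_nonneg_right _ (by positivity)
        exact Pool.Agent.H732R2.B2.card_prim f hf1
  have hsum : ∑ f ∈ (2 ^ k).divisors.filter (fun f => f ≠ 1), Pool.Agent.H732R2.B2.VV X f ≤
      (2 : ℝ) ^ k * (X / (Real.log X) ^ (A + 1)) := by
    refine (sum_le_sum hV).trans ?_
    rw [← sum_mul]
    apply mul_le_mul_of_nonneg_right _ (by positivity)
    calc ∑ f ∈ (2 ^ k).divisors.filter (fun f => f ≠ 1), (f.totient : ℝ) ≤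
        ∑ f ∈ (2 ^ k).divisors, (f.totient : ℝ) :=
          sum_le_sum_of_subset_of_nonneg (filter_subset _ _) (fun _ _ _ => by positivity)
      _ = (2 : ℝ) ^ k := by
        rw [← Nat.cast_sum, Nat.sum_totient]
        push_cast; rfl
  have her : Pool.Agent.H732R2.B2.er X (2 ^ k) ≤ Real.log X ^ 2 := by
    unfold Pool.Agent.H732R2.B2.er
    have hc : (2 ^ k).primeFactors.card ≤ 1 := by
      rcases Nat.eq_zero_or_pos k with rfl | hk0
      · simp
      · rw [Nat.primeFactors_prime_pow hk0.ne' Nat.prime_two]; simp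
    have hc' : ((2 ^ k).primeFactors.card : ℝ) ≤ 1 := by exact_mod_cast hc
    calc _ ≤ 1 * Real.log X ^ 2 := mul_le_mul_of_nonneg_right hc' (by positivity)
      _ = _ := one_mul _
  calc (1 / ((2 ^ k).totient : ℝ)) * ∑ f ∈ (2 ^ k).divisors.filter (fun f => f ≠ 1),
        Pool.Agent.H732R2.B2.VV X f + 2 * ((2 ^ k : ℕ) : ℝ) * Pool.Agent.H732R2.B2.er X (2 ^ k)
      ≤ (1 / ((2 ^ k).totient : ℝ)) * ((2 : ℝ) ^ k * (X / (Real.log X) ^ (A + 1))) +
        2 * Real.log X * Real.log X ^ 2 := by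
        apply add_le_add
        · exact mul_le_mul_of_nonneg_left hsum (by positivity)
        · push_cast
          apply mul_le_mul _ her (by unfold Pool.Agent.H732R2.B2.er; positivity) (by positivity)
          linarith
    _ ≤ 2 * (X / (Real.log X) ^ (A + 1)) + 2 * Real.log X ^ 3 := by
        apply add_le_add
        · rw [← mul_assoc]
          apply mul_le_mul_of_nonneg_right _ (by positivity)
          rw [one_div, ← div_eq_inv_mul, div_le_iff₀ hφ]
          exact htot
        · apply le_of_eq; ring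
    _ ≤ X / (Real.log X) ^ A := by
        have h5 : 2 * Real.log X ^ 3 ≤ X / (Real.log X) ^ (A + 1) := by
          rw [le_div_iff₀ (by positivity)]
          calc 2 * Real.log X ^ 3 * Real.log X ^ (A + 1) = 2 * Real.log X ^ (A + 4) := by ring
            _ ≤ X := hXlog
        have h6 : 3 * (X / (Real.log X) ^ (A + 1)) ≤ X / (Real.log X) ^ A := by
          rw [← mul_div_assoc, div_le_div_iff₀ (by positivity) (by positivity), pow_succ]
          have h7 : 0 ≤ X * Real.log X ^ A := by positivity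
          nlinarith
        linarith

theorem exists_prime_short (A : ℕ) : ∀ᶠ y : ℝ in atTop, ∀ k a : ℕ, (2 : ℝ) ^ k ≤ Real.log y →
    a.Coprime (2 ^ k) → ∃ p : ℕ, p.Prime ∧ p ≡ a [MOD 2 ^ k] ∧ y < p ∧
      (p : ℝ) ≤ y + y / (Real.log y) ^ A := by
  obtain ⟨δ, η, hδ, hδ1, hη, x₀, hx₀3, hpsi⟩ := psi_diff
  obtain ⟨X0, hD⟩ := eventually_atTop.1 (disc2 (2 * A + 5))
  have e1 : ∀ᶠ x : ℝ in atTop, 10 + 200 / η ≤ Real.log x :=
    Real.tendsto_log_atTop.eventually_ge_atTop _
  have e3 : ∀ᶠ x : ℝ in atTop, 96 / η * (Real.log x) ^ (A + 3) ≤ Real.sqrt x := by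
    have h := (isLittleO_log_rpow_rpow_atTop ((A + 3 : ℕ) : ℝ)
      (show (0 : ℝ) < 1 / 2 by norm_num)).def
      (show (0 : ℝ) < 1 / (96 / η) by positivity)
    filter_upwards [h, eventually_ge_atTop (1 : ℝ)] with x h2 h3
    rw [Real.norm_of_nonneg (Real.rpow_nonneg (Real.log_nonneg h3) _),
      Real.norm_of_nonneg (Real.rpow_nonneg (by linarith) _), ← Real.sqrt_eq_rpow,
      Real.rpow_natCast] at h2
    calc 96 / η * (Real.log x) ^ (A + 3) ≤
        96 / η * (1 / (96 / η) * Real.sqrt x) := by gcongr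
      _ = Real.sqrt x := by field_simp
  have e4 : ∀ᶠ x : ℝ in atTop, (3 * x) ^ (1 - δ) + 3 ≤ x / (Real.log x) ^ (A + 1) := by
    have h := (isLittleO_log_rpow_rpow_atTop ((A + 1 : ℕ) : ℝ)
      (show (0 : ℝ) < δ / 2 by linarith)).def
      (show (0 : ℝ) < 1 by norm_num)
    have h2 := (tendsto_rpow_atTop (show (0 : ℝ) < δ / 2 by linarith)).eventually_ge_atTop (3 + 3)
    filter_upwards [h, h2, eventually_ge_atTop (3 : ℝ), Real.tendsto_log_atTop.eventually_ge_atTop 1] with
      x h3 h4 h5 h6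
    have hx0 : 0 < x := by linarith
    rw [one_mul, Real.norm_of_nonneg (Real.rpow_nonneg (Real.log_nonneg (by linarith)) _),
      Real.norm_of_nonneg (Real.rpow_nonneg (by linarith) _), Real.rpow_natCast] at h3
    rw [le_div_iff₀ (by positivity)]
    have h8 : (3 * x) ^ (1 - δ) ≤ 3 * x ^ (1 - δ) := by
      rw [Real.mul_rpow (by norm_num) hx0.le]
      apply mul_le_mul_of_nonneg_right _ (Real.rpow_nonneg hx0.le _)
      calc (3 : ℝ) ^ (1 - δ) ≤ (3 : ℝ) ^ (1 : ℝ) :=
            Real.rpow_le_rpow_of_exponent_le (by norm_num) (by linarith)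
        _ = 3 := Real.rpow_one _
    have h9 : (1 : ℝ) ≤ x ^ (1 - δ) := Real.one_le_rpow (by linarith) (by linarith)
    calc ((3 * x) ^ (1 - δ) + 3) * Real.log x ^ (A + 1) ≤
          ((3 + 3) * x ^ (1 - δ)) * x ^ (δ / 2) := by
          apply mul_le_mul _ h3 (by positivity) (by positivity)
          linarith
      _ ≤ (x ^ (δ / 2) * x ^ (1 - δ)) * x ^ (δ / 2) := by gcongr
      _ = x := by
        rw [← Real.rpow_add hx0, ← Real.rpow_add hx0]
        rw [show δ / 2 + (1 - δ) + δ / 2 = 1 by ring, Real.rpow_one]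
  filter_upwards [e1, e3, e4, eventually_ge_atTop X0, eventually_ge_atTop x₀] with x h1 h3 h4 hxX0
    hxx0 k a hk ha
  by_contra hcon
  push Not at hcon
  have hx3 : 3 ≤ x := hx₀3.trans hxx0
  have hx0 : 0 < x := by linarith
  set q : ℕ := 2 ^ k with hqdef
  have hq : 0 < q := by positivity
  have hφ0 : (0 : ℝ) < q.totient := by exact_mod_cast Nat.totient_pos.2 hq
  set l := Real.log x with hl
  have hφl : (q.totient : ℝ) ≤ l := by
    have h5 : (q.totient : ℝ) ≤ q := by exact_mod_cast Nat.totient_le q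
    have h6 : (q : ℝ) = (2 : ℝ) ^ k := by rw [hqdef]; push_cast; rfl
    linarith
  have hqe : 0 < 200 / η := by positivity
  have hl10 : 10 ≤ l := by linarith
  have hl0 : 0 < l := by linarith
  have hlA : (1 : ℝ) ≤ l ^ A := one_le_pow₀ (by linarith)
  set v : ℝ := 1 / l ^ (A + 1) with hv
  have hv0 : 0 < v := by positivity
  have hlA1 : (10 : ℝ) ≤ l ^ (A + 1) := by
    rw [pow_succ]
    nlinarith
  have hv2 : v ≤ 1 / 8 := by
    rw [hv]
    apply one_div_le_one_div_of_le (by norm_num)
    linarith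
  -- the interval
  have hexp : Real.exp (2 * v) ≤ 1 + 4 * v := by
    have h4 := Real.abs_exp_sub_one_sub_id_le (show |2 * v| ≤ 1 by
      rw [abs_of_pos (by positivity)]; linarith)
    have h5 := (abs_le.1 h4).2
    nlinarith
  have hint : Real.exp (2 * v) * x ≤ x + x / l ^ A := by
    have h5 : 4 * v ≤ 1 / l ^ A := by
      rw [hv, mul_one_div, div_le_div_iff₀ (by positivity) (by positivity)]
      calc 4 * l ^ A ≤ l * l ^ A := by gcongr; linarith
        _ = 1 * l ^ (A + 1) := by ring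
    calc Real.exp (2 * v) * x ≤ (1 + 4 * v) * x := by gcongr
      _ = x + (4 * v) * x := by ring
      _ ≤ x + (1 / l ^ A) * x := by gcongr
      _ = _ := by ring
  have hno : ∀ p : ℕ, p.Prime → p ≡ a [MOD q] → x < p → ¬ (p : ℝ) ≤ Real.exp (2 * v) * x := by
    intro p hp hpa hxp hle
    have h4 := hcon p hp hpa hxp
    linarith
  set X2 := Real.exp (2 * v) * x with hX2
  set M := ⌊X2⌋₊ with hM
  have hup := secdiff_le x v (by linarith) hv0.le q a hno
  rw [← hX2, ← hM] at hup
  have hlow := secdiff1_ge x v hx0 hv0.le M (le_of_eq hM.symm)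
  have hs1 := secdiff x v hx0 hv0.le M (le_of_eq hM.symm) q a
  have hs2 := secdiff1 x v hx0 hv0.le M (le_of_eq hM.symm)
  rw [← hs1] at hup
  rw [← hs2] at hlow
  have hX28 : X2 ≤ 2 * x := by
    rw [hX2]
    have : (1 : ℝ) + 4 * v ≤ 2 := by linarith
    exact mul_le_mul_of_nonneg_right (hexp.trans this) hx0.le
  have hDk : ∀ κ : ℝ, 0 ≤ κ → κ ≤ 2 → |psiLogAP (Real.exp (κ * v) * x) q a -
      psiLog1 (Real.exp (κ * v) * x) / (q.totient : ℝ)| ≤ 2 * x / l ^ (2 * A + 5) := by
    intro κ hk0 hk2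
    have h4 : 1 ≤ Real.exp (κ * v) := Real.one_le_exp (by positivity)
    have h5 : x ≤ Real.exp (κ * v) * x := by nlinarith
    have h6 : Real.exp (κ * v) * x ≤ 2 * x := by
      refine le_trans ?_ hX28
      rw [hX2]
      apply mul_le_mul_of_nonneg_right _ hx0.le
      apply Real.exp_le_exp.2
      exact mul_le_mul_of_nonneg_right hk2 hv0.le
    have h7 : l ≤ Real.log (Real.exp (κ * v) * x) := Real.log_le_log hx0 h5
    refine (hD _ (hxX0.trans h5) k a (hk.trans h7) ha).trans ?_
    apply div_le_div₀ (by positivity) h6 (by positivity)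
    exact pow_le_pow_left₀ hl0.le h7 _
  have hD2 := hDk 2 (by norm_num) le_rfl
  have hD1 := hDk 1 (by norm_num) (by norm_num)
  have hD0 := hDk 0 le_rfl (by norm_num)
  rw [abs_le] at hD2 hD1 hD0
  rw [← hX2] at hD2
  -- the main term
  have hdiff : v * x ≤ Real.exp (3 * v / 2) * x - Real.exp (v / 2) * x := by
    have h4 : Real.exp (3 * v / 2) = Real.exp (v / 2) * Real.exp v := by
      rw [← Real.exp_add]; congr 1; ring
    have h5 := Real.add_one_le_exp v
    have h6 : 1 ≤ Real.exp (v / 2) := Real.one_le_exp (by positivity)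
    have h7 : v ≤ Real.exp (3 * v / 2) - Real.exp (v / 2) := by
      rw [h4]; nlinarith
    have h8 := mul_le_mul_of_nonneg_right h7 hx0.le
    rwa [sub_mul] at h8
  have hexp2 : Real.exp (v / 2) ≤ 3 := by
    calc Real.exp (v / 2) ≤ Real.exp (2 * v) := Real.exp_le_exp.2 (by linarith)
      _ ≤ 3 := by linarith
  have hexp3 : Real.exp (3 * v / 2) ≤ 2 := by
    calc Real.exp (3 * v / 2) ≤ Real.exp (2 * v) := Real.exp_le_exp.2 (by linarith)
      _ ≤ 2 := by linarith
  have hone : 1 ≤ Real.exp (v / 2) := Real.one_le_exp (by positivity)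
  have hmain := hpsi (Real.exp (v / 2) * x) (Real.exp (3 * v / 2) * x)
    (by nlinarith) (by nlinarith) (by
      refine le_trans ?_ hdiff
      have h5 : v * x = x / l ^ (A + 1) := by rw [hv]; ring
      rw [h5]
      refine le_trans ?_ h4
      have h6 : (Real.exp (v / 2) * x) ^ (1 - δ) ≤ (3 * x) ^ (1 - δ) := by
        apply Real.rpow_le_rpow (by positivity) _ (by linarith)
        exact mul_le_mul_of_nonneg_right hexp2 hx0.le
      linarith)
  have hmain2 : η * (v * x) ≤ Chebyshev.psi (Real.exp (3 * v / 2) * x) -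
      Chebyshev.psi (Real.exp (v / 2) * x) :=
    (mul_le_mul_of_nonneg_left hdiff hη.le).trans hmain
  have hT1 : η * v ^ 2 * x / 2 ≤ psiLog1 X2 - 2 * psiLog1 (Real.exp (1 * v) * x) +
      psiLog1 (Real.exp (0 * v) * x) := by
    refine le_trans ?_ hlow
    calc η * v ^ 2 * x / 2 = v / 2 * (η * (v * x)) := by ring
      _ ≤ _ := mul_le_mul_of_nonneg_left hmain2 (by positivity)
  have hT1' : η * v ^ 2 * x / 2 / q.totient ≤ psiLog1 X2 / q.totient -
      2 * (psiLog1 (Real.exp (1 * v) * x) / q.totient) + psiLog1 (Real.exp (0 * v) * x) / q.totient := by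
    have h4 := div_le_div_of_nonneg_right hT1 hφ0.le
    refine h4.trans (le_of_eq ?_)
    ring
  have hfin : η * v ^ 2 * x / 2 / q.totient ≤ 8 * x / l ^ (2 * A + 5) +
      v * (2 * Real.sqrt X2 * Real.log X2) := by
    have e12 : 8 * x / l ^ (2 * A + 5) = 4 * (2 * x / l ^ (2 * A + 5)) := by ring
    rw [e12]
    linarith
  -- contradiction
  have hA : 8 * x / l ^ (2 * A + 5) < η * v ^ 2 * x / 4 / q.totient := by
    have h5 : 200 < l * η := by
      have h6 : 200 / η < l := by linarith
      rwa [div_lt_iff₀ hη] at h6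
    have h7 : η * v ^ 2 * x / 4 / l ≤ η * v ^ 2 * x / 4 / q.totient := by
      apply div_le_div_of_nonneg_left (by positivity) hφ0 hφl
    refine lt_of_lt_of_le ?_ h7
    rw [hv, div_div, div_lt_div_iff₀ (by positivity) (by positivity)]
    have e5 : η * (1 / l ^ (A + 1)) ^ 2 * x * l ^ (2 * A + 5) = (l * η) * (x * l ^ 2) := by
      have : l ^ (2 * A + 5) = (l ^ (A + 1)) ^ 2 * l ^ 3 := by ring
      rw [this]
      field_simp
    rw [e5]
    have h8 : 0 < x * l ^ 2 := by positivity
    have h9 : 200 * (x * l ^ 2) < (l * η) * (x * l ^ 2) := mul_lt_mul_of_pos_right h5 h8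
    have h10 : 8 * x * (4 * l) ≤ 200 * (x * l ^ 2) := by
      have : 0 ≤ x * l := by positivity
      nlinarith
    linarith
  have hB : v * (2 * Real.sqrt X2 * Real.log X2) ≤ η * v ^ 2 * x / 4 / q.totient := by
    have h4 : Real.sqrt X2 ≤ 2 * Real.sqrt x := by
      calc Real.sqrt X2 ≤ Real.sqrt (4 * x) := Real.sqrt_le_sqrt (by linarith)
        _ = 2 * Real.sqrt x := by
          rw [Real.sqrt_mul (by norm_num), show (4 : ℝ) = 2 ^ 2 by norm_num, Real.sqrt_sq (by norm_num)]
    have h5 : Real.log X2 ≤ 2 * l := by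
      have h6 : X2 ≤ x * x := by nlinarith
      have hX20 : 0 < X2 := by positivity
      have h7 := Real.log_le_log hX20 h6
      rw [Real.log_mul hx0.ne' hx0.ne'] at h7
      linarith
    have h6 : 0 ≤ Real.log X2 := Real.log_nonneg (by
      have : 1 ≤ Real.exp (2 * v) := Real.one_le_exp (by positivity)
      nlinarith)
    have h7 : 2 * Real.sqrt X2 * Real.log X2 ≤ 8 * l * Real.sqrt x := by
      calc 2 * Real.sqrt X2 * Real.log X2 ≤ 2 * (2 * Real.sqrt x) * (2 * l) := by gcongr
        _ = _ := by ring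
    have hsq : Real.sqrt x * Real.sqrt x = x := Real.mul_self_sqrt hx0.le
    have hsx : 0 ≤ Real.sqrt x := Real.sqrt_nonneg x
    have h9 : 8 * l * Real.sqrt x ≤ η * v * x / 4 / q.totient := by
      have h7 : η * v * x / 4 / l ≤ η * v * x / 4 / q.totient := by
        apply div_le_div_of_nonneg_left (by positivity) hφ0 hφl
      refine le_trans ?_ h7
      rw [hv, div_div, le_div_iff₀ (by positivity)]
      have h10 : η * (1 / l ^ (A + 1)) * x = η * x / l ^ (A + 1) := by ring
      rw [h10, le_div_iff₀ (by positivity)]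
      have h11 : 96 / η * l ^ (A + 3) * η = 96 * l ^ (A + 3) := by
        field_simp
      calc 8 * l * Real.sqrt x * (4 * l) * l ^ (A + 1) = (32 * l ^ (A + 3)) * Real.sqrt x := by
            ring
        _ ≤ (Real.sqrt x * η) * Real.sqrt x := by
          apply mul_le_mul_of_nonneg_right _ hsx
          have h12 := mul_le_mul_of_nonneg_right h3 hη.le
          rw [h11] at h12
          have : 0 ≤ l ^ (A + 3) := by positivity
          linarith
        _ = η * (Real.sqrt x * Real.sqrt x) := by ring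
        _ = η * x := by rw [hsq]
    calc v * (2 * Real.sqrt X2 * Real.log X2) ≤ v * (η * v * x / 4 / q.totient) :=
          mul_le_mul_of_nonneg_left (h7.trans h9) hv0.le
      _ = _ := by ring
  have hC2 : η * v ^ 2 * x / 2 / q.totient = η * v ^ 2 * x / 4 / q.totient + η * v ^ 2 * x / 4 / q.totient := by
    ring
  linarith

end Pool.Agent.Q245.Half
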