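import Pool.Agent.Q245.Half.Mat
import Pool.Agent.Q245.Half.Prime
import Pool.Agent.W851.Had.Tower
import Pool.Agent.W69.HH.Paley

/-!
# Sign matrices of every large order divisible by four with almost orthogonal rows
-/

set_option autoImplicit false

open Finset Filter Topology

namespace Pool.Agent.Q245.Half

open Pool.Agent.H108R3.Had (HasHad)
open Pool.Agent.W851.Had (tow tow_zero tow_succ tow_pos main_had)

theorem had_of_hasHad {n : ℕ} (h : HasHad n) : Had n := by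
  obtain ⟨H, h1, h2⟩ := h
  refine ⟨H, h1, fun i j => ?_⟩
  have h3 := congrFun (congrFun h2 i) j
  rw [Matrix.mul_apply] at h3
  simp only [Matrix.transpose_apply, Matrix.smul_apply, Matrix.one_apply, smul_eq_mul,
    mul_ite, mul_one, mul_zero] at h3
  exact h3

theorem le_tow (n : ℕ) : n + 1 ≤ tow n := by
  induction n with
  | zero => rw [tow_zero]
  | succ n ih =>
    rw [tow_succ]
    have := Nat.lt_two_pow_self (n := tow n)
    omega

theorem sq_le_two_pow (x : ℕ) (hx : 4 ≤ x) : x * x ≤ 2 ^ x := by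
  induction x, hx using Nat.le_induction with
  | base => norm_num
  | succ x hx ih =>
    rw [pow_succ]
    nlinarith

theorem tow_growth (C : ℕ) (hC : 2 ≤ C) : ∃ n₁ : ℕ, ∀ n : ℕ, n₁ ≤ n →
    C ^ (n + 4) + 3 ≤ tow n := by
  set na := 2 * C + 4 with hna
  have h1 : ∀ k : ℕ, 2 * C + 4 ≤ tow (na + k) ∧ (2 * C) ^ k ≤ tow (na + k) := by
    intro k
    induction k with
    | zero =>
      have := le_tow (na + 0)
      refine ⟨by omega, ?_⟩
      rw [pow_zero]
      exact tow_pos _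
    | succ k ih =>
      obtain ⟨i1, i2⟩ := ih
      rw [← add_assoc, tow_succ]
      have h2 := sq_le_two_pow (tow (na + k)) (by omega)
      refine ⟨?_, ?_⟩
      · have := Nat.lt_two_pow_self (n := tow (na + k))
        omega
      · rw [pow_succ]
        calc (2 * C) ^ k * (2 * C) ≤ tow (na + k) * tow (na + k) :=
              Nat.mul_le_mul i2 (by omega)
          _ ≤ _ := h2
  refine ⟨na + (C ^ (na + 4) + 3), ?_⟩
  intro n hn
  obtain ⟨k, rfl⟩ : ∃ k, n = na + k := ⟨n - na, by omega⟩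
  have hk : C ^ (na + 4) + 3 ≤ k := by omega
  refine le_trans ?_ (h1 k).2
  rw [mul_pow]
  have h2 : C ^ (na + 4) + 3 ≤ 2 ^ k := hk.trans (Nat.lt_two_pow_self (n := k)).le
  have h3 : 1 ≤ C ^ k := Nat.one_le_pow _ _ (by omega)
  calc C ^ (na + k + 4) + 3 = C ^ (na + 4) * C ^ k + 3 := by ring
    _ ≤ C ^ (na + 4) * C ^ k + 3 * C ^ k := by omega
    _ = (C ^ (na + 4) + 3) * C ^ k := by ring
    _ ≤ 2 ^ k * C ^ k := Nat.mul_le_mul_right _ h2

/-- the needed power of two -/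
theorem power : ∃ N₀ : ℕ, ∀ N : ℕ, N₀ ≤ N → ∃ T : ℕ, 2 ≤ T ∧
    4 * (2 : ℝ) ^ T ≤ Real.log N ∧ ∀ b : ℕ, b ≤ N → 2 ^ T ∣ b → Had b := by
  obtain ⟨C, hC, hhad⟩ := main_had
  obtain ⟨n₁, hn₁⟩ := tow_growth C hC
  refine ⟨tow (n₁ + 3) + 1, fun N hN => ?_⟩
  have hex : ∃ n, N ≤ tow n := ⟨N, by have := le_tow N; omega⟩
  classical
  set n := Nat.find hex with hn
  have hNn : N ≤ tow n := Nat.find_spec hex
  have hmono : Monotone tow := by
    apply monotone_nat_of_le_succ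
    intro m
    rw [tow_succ]
    exact (Nat.lt_two_pow_self (n := tow m)).le
  have hn4 : n₁ + 4 ≤ n := by
    by_contra hlt
    have : tow n ≤ tow (n₁ + 3) := hmono (by omega)
    omega
  have hn1 : tow (n - 1) < N := by
    have := Nat.find_min hex (m := n - 1) (by omega)
    omega
  refine ⟨C ^ (n + 1), ?_, ?_, ?_⟩
  · calc 2 ≤ C := hC
      _ = C ^ 1 := (pow_one _).symm
      _ ≤ _ := Nat.pow_le_pow_right (by omega) (by omega)
  · obtain ⟨m, hm⟩ : ∃ m, n = m + 3 := ⟨n - 3, by omega⟩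
    rw [hm] at hn1 ⊢
    have h2 := hn₁ m (by omega)
    have h3 : m + 3 - 1 = m + 1 + 1 := by omega
    rw [h3, tow_succ] at hn1
    have h4 : 2 ^ (C ^ (m + 4) + 3) ≤ tow (m + 1) := by
      rw [tow_succ]
      exact Nat.pow_le_pow_right (by norm_num) h2
    have h5 : (2 : ℝ) ^ tow (m + 1) ≤ N := by exact_mod_cast hn1.le
    have h6 := Real.log_le_log (by positivity) h5
    rw [Real.log_pow] at h6
    have h7 : ((2 : ℝ) ^ (C ^ (m + 4) + 3)) ≤ tow (m + 1) := by exact_mod_cast h4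
    have h8 := Real.log_two_gt_d9
    have h9 : (0 : ℝ) ≤ tow (m + 1) := by positivity
    have e : m + 3 + 1 = m + 4 := by omega
    rw [e]
    rw [pow_add] at h7
    have h10 : (tow (m + 1) : ℝ) * (1 / 2) ≤ tow (m + 1) * Real.log 2 :=
      mul_le_mul_of_nonneg_left (by linarith) h9
    linarith
  · intro b hb hdvd
    obtain ⟨q, rfl⟩ := hdvd
    apply had_of_hasHad
    apply hhad n q _ _ le_rfl
    calc q ≤ 2 ^ C ^ (n + 1) * q := Nat.le_mul_of_pos_left _ (by positivity)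
      _ ≤ N := hb
      _ ≤ _ := hNn

/-- the two orders -/
theorem orders (A : ℕ) : ∃ N₀ : ℕ, ∀ N : ℕ, N₀ ≤ N → 4 ∣ N → ∃ a d : ℕ, a + (a + d) = N ∧
    d ≤ a ∧ Had a ∧ Had (a + d) ∧ (3 * d : ℝ) ≤ N / (Real.log N) ^ A ∧
    (N : ℝ) / 2 - N / (Real.log N) ^ A ≤ a := by
  obtain ⟨N₁, hpow⟩ := power
  obtain ⟨y₀, hy₀⟩ := eventually_atTop.1 (exists_prime_short (A + 3))
  have hev : ∀ᶠ x : ℝ in atTop, 4 * y₀ ≤ x ∧ 16 ≤ x ∧ 8 ≤ Real.log x ∧
      (2 : ℝ) ^ (A + 3) ≤ Real.log x ∧ 2 * (Real.log x) ^ (A + 2) ≤ x ∧ 1 ≤ x := by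
    have e1 : ∀ᶠ x : ℝ in atTop, 2 * (Real.log x) ^ (A + 2) ≤ x := by
      have h := (isLittleO_log_rpow_rpow_atTop ((A + 2 : ℕ) : ℝ)
        (show (0 : ℝ) < 1 by norm_num)).def (show (0 : ℝ) < 1 / 2 by norm_num)
      filter_upwards [h, eventually_ge_atTop (1 : ℝ)] with x h2 h3
      rw [Real.norm_of_nonneg (Real.rpow_nonneg (Real.log_nonneg h3) _),
        Real.norm_of_nonneg (Real.rpow_nonneg (by linarith) _), Real.rpow_one,
        Real.rpow_natCast] at h2
      linarith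
    filter_upwards [eventually_ge_atTop (4 * y₀), eventually_ge_atTop (16 : ℝ),
      Real.tendsto_log_atTop.eventually_ge_atTop 8,
      Real.tendsto_log_atTop.eventually_ge_atTop ((2 : ℝ) ^ (A + 3)), e1,
      eventually_ge_atTop (1 : ℝ)] with x h1 h2 h3 h4 h5 h6
    exact ⟨h1, h2, h3, h4, h5, h6⟩
  obtain ⟨x₀, hx₀⟩ := eventually_atTop.1 hev
  refine ⟨max N₁ ⌈x₀⌉₊, fun N hN h4 => ?_⟩
  have hNx : x₀ ≤ N := (Nat.le_ceil x₀).trans (by exact_mod_cast (le_max_right _ _).trans hN)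
  obtain ⟨g1, g2, g3, g4, g5, g6⟩ := hx₀ N hNx
  obtain ⟨T, hT2, hT, hTh⟩ := hpow N ((le_max_left _ _).trans hN)
  set L := Real.log N with hL
  have hL0 : 0 < L := by linarith
  have hLA : 0 < L ^ (A + 2) := by positivity
  have hN0 : (0 : ℝ) < N := by linarith
  set y : ℝ := N / 2 - N / L ^ (A + 2) with hy
  have hL2 : (4 : ℝ) ≤ L ^ (A + 2) := by
    have h1 : (1 : ℝ) ≤ L ^ A := one_le_pow₀ (by linarith)
    have : L ^ (A + 2) = L ^ A * L ^ 2 := by ring
    rw [this]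
    nlinarith
  have hNL : (N : ℝ) / L ^ (A + 2) ≤ N / 4 := div_le_div_of_nonneg_left hN0.le (by norm_num) hL2
  have hNL0 : 0 < (N : ℝ) / L ^ (A + 2) := by positivity
  have hy4 : (N : ℝ) / 4 ≤ y := by rw [hy]; linarith
  have hylt : y ≤ N / 2 := by rw [hy]; linarith
  have hy0 : 0 < y := by linarith
  have hlogy : L / 2 ≤ Real.log y := by
    have h1 : Real.sqrt N ≤ y := by
      refine le_trans ?_ hy4
      rw [Real.sqrt_le_left (by positivity)]
      nlinarith
    have h2 := Real.log_le_log (Real.sqrt_pos.2 hN0) h1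
    rwa [Real.log_sqrt hN0.le] at h2
  have hcop : (N - 1).Coprime (2 ^ T) := by
    apply Nat.Coprime.pow_right
    rw [Nat.coprime_two_right]
    obtain ⟨m, rfl⟩ := h4
    have : 0 < m := by
      rcases Nat.eq_zero_or_pos m with rfl | h
      · simp at hN0
      · exact h
    exact ⟨2 * m - 1, by omega⟩
  obtain ⟨p, hp, hpa, hyp, hpy⟩ := hy₀ y (by linarith) T (N - 1) (by linarith) hcop
  have hNpos : 1 ≤ N := by exact_mod_cast g6
  -- the upper bound for `p`
  have hup : y / (Real.log y) ^ (A + 3) ≤ N / L ^ (A + 2) / 2 := by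
    have h1 : y / (Real.log y) ^ (A + 3) ≤ (N / 2) / (L / 2) ^ (A + 3) := by
      apply div_le_div₀ (by positivity) hylt (by positivity)
      exact pow_le_pow_left₀ (by positivity) hlogy _
    refine h1.trans ?_
    rw [div_pow, div_div_eq_mul_div, div_le_iff₀ (by positivity)]
    have h2 : (N : ℝ) / L ^ (A + 2) / 2 * L ^ (A + 3) = N * L / 2 := by
      have : L ^ (A + 3) = L ^ (A + 2) * L := by ring
      rw [this]
      field_simp
    rw [h2]
    have h3 := mul_le_mul_of_nonneg_left g4 hN0.le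
    linarith
  have hp2 : (p : ℝ) + 1 ≤ N / 2 := by
    have h1 : (p : ℝ) ≤ N / 2 - N / L ^ (A + 2) / 2 := by
      have : (p : ℝ) ≤ y + N / L ^ (A + 2) / 2 := by linarith
      rw [hy] at this
      linarith
    have h2 : (1 : ℝ) ≤ N / L ^ (A + 2) / 2 := by
      rw [div_div, le_div_iff₀ (by positivity)]
      linarith
    linarith
  have hp3 : 2 * (p + 1) ≤ N := by
    have : (2 : ℝ) * (p + 1) ≤ N := by linarith
    exact_mod_cast this
  obtain ⟨d, hd⟩ : ∃ d, N = 2 * (p + 1) + d := ⟨N - 2 * (p + 1), by omega⟩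
  have hdr : (d : ℝ) = N - 2 * (p + 1) := by
    have : (N : ℝ) = 2 * (p + 1) + d := by exact_mod_cast hd
    linarith
  have hdle : (d : ℝ) ≤ 2 * (N / L ^ (A + 2)) := by
    rw [hdr]
    have : y < p := hyp
    rw [hy] at this
    linarith
  have hpa' : 2 ^ T ∣ (N - 1) - p := (Nat.modEq_iff_dvd' (by omega)).1 hpa
  have h4T : 4 ∣ 2 ^ T := by
    have := Nat.pow_dvd_pow 2 hT2
    simpa using this
  have hp4 : p % 4 = 3 := by
    have h1 : 4 ∣ (N - 1) - p := h4T.trans hpa'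
    omega
  have hLL : (64 : ℝ) ≤ L ^ 2 := by nlinarith
  have hfin : 6 * (N / L ^ (A + 2)) ≤ N / L ^ A := by
    rw [← mul_div_assoc, div_le_div_iff₀ (by positivity) (by positivity)]
    have h1 : L ^ (A + 2) = L ^ A * L ^ 2 := by ring
    rw [h1]
    have h2 : 0 < N * L ^ A := by positivity
    nlinarith
  refine ⟨p + 1, d, by omega, ?_, ?_, ?_, ?_, ?_⟩
  · have h1 : (d : ℝ) ≤ (p + 1 : ℕ) := by
      push_cast
      have h2 : (64 : ℝ) ≤ L ^ (A + 2) := by
        have h1 : (1 : ℝ) ≤ L ^ A := one_le_pow₀ (by linarith)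
        have : L ^ (A + 2) = L ^ A * L ^ 2 := by ring
        rw [this]
        nlinarith
      have h3 : (N : ℝ) / L ^ (A + 2) ≤ N / 64 :=
        div_le_div_of_nonneg_left hN0.le (by norm_num) h2
      linarith
    exact_mod_cast h1
  · haveI : Fact p.Prime := ⟨hp⟩
    exact had_of_hasHad (Pool.Agent.W69.HH.paley hp4)
  · apply hTh _ (by omega)
    have h1 : p + 1 + d = N - 1 - p := by omega
    rw [h1]
    exact hpa'
  · have : (3 : ℝ) * d ≤ 6 * (N / L ^ (A + 2)) := by linarith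
    linarith
  · push_cast
    have h1 : y < p := hyp
    rw [hy] at h1
    have : (N : ℝ) / L ^ (A + 2) ≤ N / L ^ A := by linarith
    linarith

end Pool.Agent.Q245.Half
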