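import Mathlib

/-!
# Two Hadamard matrices of orders `a ≤ b ≤ 2 a` give a sign matrix of order `a + b` whose Gram
matrix is a direct sum of blocks of size at most three
-/

set_option autoImplicit false

namespace Pool.Agent.Q245.Half

open Finset

/-- inner product of two rows -/
def ip {n : ℕ} (H : Fin n → Fin n → ℤ) (i j : Fin n) : ℤ := ∑ k, H i k * H j k

/-- there is a Hadamard matrix of order `n` -/
def Had (n : ℕ) : Prop := ∃ H : Fin n → Fin n → ℤ, (∀ i j, H i j = 1 ∨ H i j = -1) ∧
  ∀ i j, ip H i j = if i = j then (n : ℤ) else 0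

/-- the index of the rows -/
abbrev Rw (a d : ℕ) := (Fin a ⊕ Fin a) ⊕ Fin d

variable {a d : ℕ}

def gg (hd : d ≤ a) : Rw a d → Fin a
  | Sum.inl (Sum.inl i) => i
  | Sum.inl (Sum.inr i) => i
  | Sum.inr j => ⟨j, by omega⟩

def hh : Rw a d → Fin (a + d)
  | Sum.inl (Sum.inl i) => Fin.castAdd d i
  | Sum.inl (Sum.inr i) => Fin.castAdd d i
  | Sum.inr j => Fin.natAdd a j

def ee : Rw a d → ℤ
  | Sum.inl (Sum.inl _) => 1
  | Sum.inl (Sum.inr _) => -1
  | Sum.inr _ => 1

/-- the matrix -/
def MM (hd : d ≤ a) (A : Fin a → Fin a → ℤ) (B : Fin (a + d) → Fin (a + d) → ℤ) (r : Rw a d)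
    (c : Fin a ⊕ Fin (a + d)) : ℤ :=
  Sum.elim (fun k => A (gg hd r) k) (fun k => ee r * B (hh r) k) c

theorem ee_sq (r : Rw a d) : ee r = 1 ∨ ee r = -1 := by
  rcases r with (i | i) | j <;> simp [ee]

theorem MM_sign (hd : d ≤ a) (A : Fin a → Fin a → ℤ) (B : Fin (a + d) → Fin (a + d) → ℤ)
    (hA : ∀ i j, A i j = 1 ∨ A i j = -1) (hB : ∀ i j, B i j = 1 ∨ B i j = -1) (r : Rw a d)
    (c : Fin a ⊕ Fin (a + d)) : MM hd A B r c = 1 ∨ MM hd A B r c = -1 := by
  rcases c with k | k
  · exact hA _ _
  · simp only [MM, Sum.elim_inr]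
    rcases ee_sq r with h | h <;> rcases hB (hh r) k with h' | h' <;> rw [h, h'] <;> simp

theorem MM_ip (hd : d ≤ a) (A : Fin a → Fin a → ℤ) (B : Fin (a + d) → Fin (a + d) → ℤ)
    (hA : ∀ i j, ip A i j = if i = j then (a : ℤ) else 0)
    (hB : ∀ i j, ip B i j = if i = j then ((a + d : ℕ) : ℤ) else 0) (r s : Rw a d) :
    ∑ c, MM hd A B r c * MM hd A B s c =
      (if gg hd r = gg hd s then (a : ℤ) else 0) +
        ee r * ee s * (if hh r = hh s then ((a + d : ℕ) : ℤ) else 0) := by
  rw [Fintype.sum_sum_type]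
  simp only [MM, Sum.elim_inl, Sum.elim_inr]
  congr 1
  · exact hA _ _
  · rw [← hB, ip, mul_sum]
    apply sum_congr rfl
    intro k _
    ring

theorem hh_gg (hd : d ≤ a) (r s : Rw a d) (h : hh r = hh s) : gg hd r = gg hd s := by
  rcases r with (i | i) | i <;> rcases s with (j | j) | j <;>
    simp only [hh, gg, Fin.ext_iff, Fin.val_castAdd, Fin.val_natAdd] at h ⊢ <;> omega

/-- rows with different `gg` are orthogonal -/
theorem orth (hd : d ≤ a) (A : Fin a → Fin a → ℤ) (B : Fin (a + d) → Fin (a + d) → ℤ)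
    (hA : ∀ i j, ip A i j = if i = j then (a : ℤ) else 0)
    (hB : ∀ i j, ip B i j = if i = j then ((a + d : ℕ) : ℤ) else 0) (r s : Rw a d)
    (h : gg hd r ≠ gg hd s) : ∑ c, MM hd A B r c * MM hd A B s c = 0 := by
  rw [MM_ip hd A B hA hB, if_neg h, if_neg fun h' => h (hh_gg hd r s h')]
  simp

theorem card_fibre (hd : d ≤ a) (r : Rw a d) :
    (univ.filter fun s => s ≠ r ∧ gg hd s = gg hd r).card ≤ 2 := by
  classical
  have hsub : (univ.filter fun s => gg hd s = gg hd r) ⊆
      (({Sum.inl (Sum.inl (gg hd r)), Sum.inl (Sum.inr (gg hd r))} : Finset (Rw a d)) ∪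
        (univ.filter fun j : Fin d => (j : ℕ) = gg hd r).image Sum.inr) := by
    intro s hs
    simp only [mem_filter, mem_univ, true_and] at hs
    simp only [mem_union, mem_insert, mem_singleton, mem_image, mem_filter, mem_univ, true_and]
    rcases s with (i | i) | j
    · left; left
      rw [← hs]; rfl
    · left; right
      rw [← hs]; rfl
    · right
      refine ⟨j, ?_, rfl⟩
      rw [← hs]; rfl
  have h1 : ((univ.filter fun j : Fin d => (j : ℕ) = gg hd r).image
      (Sum.inr : Fin d → Rw a d)).card ≤ 1 := by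
    refine card_image_le.trans ?_
    rw [card_le_one]
    intro x hx y hy
    simp only [mem_filter, mem_univ, true_and] at hx hy
    exact Fin.ext (hx.trans hy.symm)
  have h2 : (univ.filter fun s => gg hd s = gg hd r).card ≤ 3 := by
    refine (card_le_card hsub).trans ((card_union_le _ _).trans ?_)
    have := card_le_two (a := (Sum.inl (Sum.inl (gg hd r)) : Rw a d))
      (b := Sum.inl (Sum.inr (gg hd r)))
    omega
  have h3 : r ∈ univ.filter fun s => gg hd s = gg hd r := by simp
  have h4 : (univ.filter fun s => s ≠ r ∧ gg hd s = gg hd r) =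
      (univ.filter fun s => gg hd s = gg hd r).erase r := by
    ext s
    simp
  rw [h4, card_erase_of_mem h3]
  omega

theorem card_fibre_one (hd : d ≤ a) (r : Rw a d) (hr : d ≤ (gg hd r : ℕ)) :
    (univ.filter fun s => s ≠ r ∧ gg hd s = gg hd r).card ≤ 1 := by
  classical
  have hsub : (univ.filter fun s => gg hd s = gg hd r) ⊆
      ({Sum.inl (Sum.inl (gg hd r)), Sum.inl (Sum.inr (gg hd r))} : Finset (Rw a d)) := by
    intro s hs
    simp only [mem_filter, mem_univ, true_and] at hs
    simp only [mem_insert, mem_singleton]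
    rcases s with (i | i) | j
    · left
      rw [← hs]; rfl
    · right
      rw [← hs]; rfl
    · exfalso
      have h1 := congrArg Fin.val hs
      simp only [gg] at h1
      have := j.2
      simp only [gg] at hr
      omega
  have h2 : (univ.filter fun s => gg hd s = gg hd r).card ≤ 2 :=
    (card_le_card hsub).trans card_le_two
  have h3 : r ∈ univ.filter fun s => gg hd s = gg hd r := by simp
  have h4 : (univ.filter fun s => s ≠ r ∧ gg hd s = gg hd r) =
      (univ.filter fun s => gg hd s = gg hd r).erase r := by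
    ext s
    simp
  rw [h4, card_erase_of_mem h3]
  omega

theorem ip_pair (hd : d ≤ a) (A : Fin a → Fin a → ℤ) (B : Fin (a + d) → Fin (a + d) → ℤ)
    (hA : ∀ i j, ip A i j = if i = j then (a : ℤ) else 0)
    (hB : ∀ i j, ip B i j = if i = j then ((a + d : ℕ) : ℤ) else 0) (r s : Rw a d)
    (hrs : s ≠ r) (hr : d ≤ (gg hd r : ℕ)) : |∑ c, MM hd A B r c * MM hd A B s c| ≤ d := by
  by_cases h : gg hd r = gg hd s
  · rw [MM_ip hd A B hA hB, if_pos h]
    have key : hh r = hh s ∧ ee r * ee s = -1 := by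
      rcases r with (i | i) | i <;> rcases s with (j | j) | j
      all_goals
        simp only [gg, Fin.ext_iff, ne_eq] at h hr hrs ⊢
      · exact absurd (by simp [Fin.ext h]) hrs
      · simp [hh, ee, Fin.ext h]
      · have := j.2; omega
      · simp [hh, ee, Fin.ext h]
      · exact absurd (by simp [Fin.ext h]) hrs
      · have := j.2; omega
      · have := i.2; omega
      · have := i.2; omega
      · have := i.2; omega
    rw [if_pos key.1, key.2]
    push_cast
    have : (a : ℤ) + -1 * (a + d) = -(d : ℤ) := by ring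
    rw [this, abs_neg]
    simp
  · rw [orth hd A B hA hB r s h]
    simp

theorem card_exc (hd : d ≤ a) :
    (univ.filter fun r : Rw a d => (gg hd r : ℕ) < d).card ≤ 3 * d := by
  classical
  have hsub : (univ.filter fun r : Rw a d => (gg hd r : ℕ) < d) ⊆
      (univ : Finset (Fin d)).image (fun j : Fin d => (Sum.inl (Sum.inl ⟨j, j.2.trans_le hd⟩) : Rw a d)) ∪
      ((univ : Finset (Fin d)).image (fun j : Fin d => (Sum.inl (Sum.inr ⟨j, j.2.trans_le hd⟩) : Rw a d)) ∪
      (univ : Finset (Fin d)).image (fun j : Fin d => (Sum.inr j : Rw a d))) := by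
    intro r hr
    simp only [mem_filter, mem_univ, true_and] at hr
    simp only [mem_union, mem_image, mem_univ, true_and]
    rcases r with (i | i) | j
    · left
      exact ⟨⟨i, hr⟩, rfl⟩
    · right; left
      exact ⟨⟨i, hr⟩, rfl⟩
    · right; right
      exact ⟨j, rfl⟩
  refine (card_le_card hsub).trans ((card_union_le _ _).trans ?_)
  have h1 := card_union_le
    ((univ : Finset (Fin d)).image (fun j : Fin d => (Sum.inl (Sum.inr ⟨j, j.2.trans_le hd⟩) : Rw a d)))
    ((univ : Finset (Fin d)).image (fun j : Fin d => (Sum.inr j : Rw a d)))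
  have h2 : ∀ f : Fin d → Rw a d, ((univ : Finset (Fin d)).image f).card ≤ d := by
    intro f
    refine card_image_le.trans ?_
    simp
  have h3 := h2 (fun j : Fin d => (Sum.inl (Sum.inl ⟨j, j.2.trans_le hd⟩) : Rw a d))
  have h4 := h2 (fun j : Fin d => (Sum.inl (Sum.inr ⟨j, j.2.trans_le hd⟩) : Rw a d))
  have h5 := h2 (fun j : Fin d => (Sum.inr j : Rw a d))
  omega

/-- Two Hadamard matrices of orders `a` and `a + d` with `d ≤ a` give a sign matrix of order
`N = 2 a + d` in which every row is orthogonal to all but at most two of the other rows, outside a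
set of at most `3 d` rows every row is orthogonal to all but at most one of the others, all these
inner products are at most `d`, and `a` of the rows are mutually orthogonal. -/
theorem main {N : ℕ} (hd : d ≤ a) (hN : a + (a + d) = N) (hA : Had a) (hB : Had (a + d)) :
    ∃ H : Fin N → Fin N → ℤ, (∀ i j, H i j = 1 ∨ H i j = -1) ∧
      (∀ i, (univ.filter fun j => j ≠ i ∧ ip H i j ≠ 0).card ≤ 2) ∧
      (∃ S : Finset (Fin N), S.card ≤ 3 * d ∧ ∀ i, i ∉ S →
        (univ.filter fun j => j ≠ i ∧ ip H i j ≠ 0).card ≤ 1 ∧ ∀ j, j ≠ i → |ip H i j| ≤ d) ∧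
      ∃ R : Finset (Fin N), R.card = a ∧ ∀ i ∈ R, ∀ j ∈ R, i ≠ j → ip H i j = 0 := by
  classical
  obtain ⟨A, hA1, hA2⟩ := hA
  obtain ⟨B, hB1, hB2⟩ := hB
  have hc1 : Fintype.card (Rw a d) = N := by simp [← hN]; ring
  have hc2 : Fintype.card (Fin a ⊕ Fin (a + d)) = N := by simp [← hN]
  let er : Fin N ≃ Rw a d := (Fintype.equivFinOfCardEq hc1).symm
  let ec : Fin N ≃ (Fin a ⊕ Fin (a + d)) := (Fintype.equivFinOfCardEq hc2).symm
  let H : Fin N → Fin N → ℤ := fun i j => MM hd A B (er i) (ec j)
  have hip : ∀ i j, ip H i j = ∑ c, MM hd A B (er i) c * MM hd A B (er j) c := by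
    intro i j
    rw [ip, ← Equiv.sum_comp ec]
  have hcount : ∀ (i : Fin N) (m : ℕ),
      (univ.filter fun s => s ≠ er i ∧ gg hd s = gg hd (er i)).card ≤ m →
      (univ.filter fun j => j ≠ i ∧ ip H i j ≠ 0).card ≤ m := by
    intro i m hm
    refine le_trans ?_ hm
    rw [← card_map er.toEmbedding]
    apply card_le_card
    intro s hs
    rw [mem_map] at hs
    obtain ⟨j, hj, rfl⟩ := hs
    simp only [mem_filter, mem_univ, true_and] at hj ⊢
    refine ⟨fun h => hj.1 (er.injective h), ?_⟩
    by_contra h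
    apply hj.2
    rw [hip]
    exact orth hd A B hA2 hB2 _ _ fun h' => h h'.symm
  refine ⟨H, fun i j => MM_sign hd A B hA1 hB1 _ _, fun i => hcount i 2 (card_fibre hd _), ?_, ?_⟩
  · refine ⟨univ.filter fun i => (gg hd (er i) : ℕ) < d, ?_, ?_⟩
    · refine le_trans ?_ (card_exc hd)
      rw [← card_map er.toEmbedding]
      apply card_le_card
      intro s hs
      rw [mem_map] at hs
      obtain ⟨j, hj, rfl⟩ := hs
      simpa using hj
    · intro i hi
      simp only [mem_filter, mem_univ, true_and, not_lt] at hi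
      refine ⟨hcount i 1 (card_fibre_one hd _ hi), ?_⟩
      intro j hj
      rw [hip]
      exact ip_pair hd A B hA2 hB2 _ _ (fun h => hj (er.injective h)) hi
  · refine ⟨(univ : Finset (Fin a)).map
      ⟨fun i => er.symm (Sum.inl (Sum.inl i)), fun i j h => by simpa using h⟩, by simp, ?_⟩
    intro i hi j hj hij
    rw [mem_map] at hi hj
    obtain ⟨x, _, rfl⟩ := hi
    obtain ⟨y, _, rfl⟩ := hj
    have hxy : x ≠ y := fun h => hij (by rw [h])
    change ip H (er.symm (Sum.inl (Sum.inl x))) (er.symm (Sum.inl (Sum.inl y))) = 0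
    rw [hip, Equiv.apply_symm_apply, Equiv.apply_symm_apply]
    exact orth hd A B hA2 hB2 _ _ hxy

end Pool.Agent.Q245.Half
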